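import Pool.Agent.Helper23.GK.StF
import Pool.Agent.Helper68.MR.MV
import Pool.Agent.Helper2.MR.Dec

/-! # GK module MEA: mean value of products of block polynomials -/

set_option autoImplicit false

namespace Pool.Agent.Helper71.GK

open Finset ArithmeticFunction MeasureTheory
open Pool.Agent.Helper2.MR (ch StMV)
open Pool.Agent.Helper23.GK

open scoped Pointwise in
private lemma mea_submul (m n : ℕ) :
    (m * n).divisors.card ≤ m.divisors.card * n.divisors.card := by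
  rw [Nat.divisors_mul]
  exact Finset.card_mul_le

private lemma mea_tau (k : ℕ) : ∀ P : ℕ, 1 ≤ P →
    ∑ n ∈ Icc 1 P, ((n.divisors.card : ℝ)) ^ k / n ≤ (1 + Real.log P) ^ (2 ^ k) := by
  induction k with
  | zero =>
    intro P hP
    have h := harmonic_le_one_add_log P
    rw [harmonic_eq_sum_Icc] at h
    push_cast at h
    simpa using h
  | succ k ih =>
    intro P hP
    have h1 : ∀ n ∈ Icc 1 P, ((n.divisors.card : ℝ)) ^ (k + 1) / n ≤
        ∑ x ∈ (Icc 1 P ×ˢ Icc 1 P).filter (fun x => x.1 * x.2 = n),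
          (((x.1.divisors.card : ℝ)) ^ k / x.1) * (((x.2.divisors.card : ℝ)) ^ k / x.2) := by
      intro n hn
      rw [mem_Icc] at hn
      have hD : n.divisorsAntidiagonal = (Icc 1 P ×ˢ Icc 1 P).filter (fun x => x.1 * x.2 = n) := by
        ext x
        simp only [Nat.mem_divisorsAntidiagonal, mem_filter, mem_product, mem_Icc]
        constructor
        · rintro ⟨h, h0⟩
          have h1 : 0 < x.1 := Nat.pos_of_ne_zero (by rintro h'; rw [h'] at h; simp at h; omega)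
          have h2 : 0 < x.2 := Nat.pos_of_ne_zero (by rintro h'; rw [h'] at h; simp at h; omega)
          refine ⟨⟨⟨h1, ?_⟩, ⟨h2, ?_⟩⟩, h⟩
          · exact (Nat.le_mul_of_pos_right _ h2).trans (h.le.trans hn.2)
          · exact (Nat.le_mul_of_pos_left _ h1).trans (h.le.trans hn.2)
        · rintro ⟨_, h⟩
          exact ⟨h, by omega⟩
      rw [← hD]
      have hcard : (n.divisors.card : ℝ) = ∑ x ∈ n.divisorsAntidiagonal, (1 : ℝ) := by
        rw [sum_const, nsmul_eq_mul, mul_one]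
        congr 1
        rw [← Nat.map_div_right_divisors, card_map]
      rw [pow_succ, mul_comm, mul_div_assoc]
      nth_rewrite 1 [hcard]
      rw [sum_mul]
      apply sum_le_sum
      intro x hx
      rw [Nat.mem_divisorsAntidiagonal] at hx
      obtain ⟨hx, hx0⟩ := hx
      rw [one_mul, ← hx]
      have h3 : (((x.1 * x.2).divisors.card : ℕ) : ℝ) ≤ x.1.divisors.card * x.2.divisors.card := by
        exact_mod_cast mea_submul x.1 x.2
      rw [div_mul_div_comm, ← mul_pow]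
      push_cast
      gcongr
    refine (sum_le_sum h1).trans ?_
    rw [Finset.sum_fiberwise_eq_sum_filter]
    refine (Finset.sum_le_sum_of_subset_of_nonneg (filter_subset _ _)
      (fun _ _ _ => by positivity)).trans ?_
    rw [Finset.sum_product]
    simp only []
    rw [← Finset.sum_mul_sum, pow_succ, mul_comm (2 ^ k) 2, two_mul, pow_add]
    have h0 : 0 ≤ ∑ n ∈ Icc 1 P, ((n.divisors.card : ℝ)) ^ k / n :=
      sum_nonneg (fun _ _ => by positivity)
    have hl : 0 ≤ Real.log P := Real.log_natCast_nonneg P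
    exact mul_le_mul (ih P hP) (ih P hP) h0 (by positivity)

private lemma mea_blk {e n : ℕ} (h : n ∈ blk2 e) : 1 ≤ n ∧ n ≤ 2 ^ e ∧ 2 ^ e ≤ 2 * n := by
  unfold blk2 at h
  split_ifs at h with h0
  · rw [mem_singleton] at h
    subst h h0
    simp
  · rw [mem_Ioc] at h
    obtain ⟨h1, h2⟩ := h
    have h3 : 2 ^ e = 2 * 2 ^ (e - 1) := by
      rw [← pow_succ']
      congr 1
      omega
    have := Nat.one_le_two_pow (n := e - 1)
    exact ⟨by omega, h2, by omega⟩

private lemma mea_ch (t : ℝ) (s : Finset (Fin 4)) (x : Fin 4 → ℕ) (hx : ∀ i, x i ≠ 0) :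
    ch t (∏ i ∈ s, x i) = ∏ i ∈ s, ch t (x i) := by
  classical
  induction s using Finset.induction_on with
  | empty => simp [ch]
  | insert a s ha ih =>
    rw [prod_insert ha, prod_insert ha,
      Pool.Agent.Helper2.MR.Decx.ch_mul t (hx a) (Finset.prod_ne_zero_iff.2 (fun i _ => hx i)), ih]

/-- coefficients of the product -/
private noncomputable def mea_d (a : Fin 4 → ℕ → ℂ) (e : Fin 4 → ℕ) (n : ℕ) : ℂ :=
  ∑ x ∈ (Fintype.piFinset (fun i => blk2 (e i))).filter (fun x => ∏ i, x i = n),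
    ∏ i, (a i (x i) / (x i : ℂ))

private lemma mea_prod (a : Fin 4 → ℕ → ℂ) (e : Fin 4 → ℕ) (t : ℝ) :
    ∏ i, AA (a i) (e i) t = ∑ n ∈ Icc 1 (2 ^ (∑ i, e i)), mea_d a e n * ch t n := by
  unfold AA
  rw [Finset.prod_univ_sum]
  unfold mea_d
  simp_rw [Finset.sum_mul]
  have h1 : ∀ n ∈ Icc 1 (2 ^ (∑ i, e i)),
      ∑ x ∈ (Fintype.piFinset (fun i => blk2 (e i))).filter (fun x => ∏ i, x i = n),
        (∏ i, (a i (x i) / (x i : ℂ))) * ch t n =
      ∑ x ∈ (Fintype.piFinset (fun i => blk2 (e i))).filter (fun x => ∏ i, x i = n),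
        ∏ i, (a i (x i) * ch t (x i) / (x i : ℂ)) := by
    intro n _
    apply sum_congr rfl
    intro x hx
    rw [mem_filter, Fintype.mem_piFinset] at hx
    rw [← hx.2, mea_ch t univ x (fun i => by have := (mea_blk (hx.1 i)).1; omega),
      ← prod_mul_distrib]
    apply prod_congr rfl
    intro i _
    ring
  rw [sum_congr rfl h1, Finset.sum_fiberwise_of_maps_to]
  intro x hx
  rw [Fintype.mem_piFinset] at hx
  rw [mem_Icc]
  constructor
  · exact Nat.one_le_iff_ne_zero.2 (Finset.prod_ne_zero_iff.2 (fun i _ => by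
      have := (mea_blk (hx i)).1; omega))
  · rw [← Finset.prod_pow_eq_pow_sum]
    exact Finset.prod_le_prod' (fun i _ => (mea_blk (hx i)).2.1)

private lemma mea_dle (a : Fin 4 → ℕ → ℂ) (e : Fin 4 → ℕ) (K : ℝ) (hK : 1 ≤ K)
    (ha : ∀ i, ∀ n ∈ blk2 (e i), ‖a i n‖ ≤ K) (n : ℕ) (hn : 1 ≤ n) :
    ‖mea_d a e n‖ ^ 2 ≤ 16 * K ^ 8 / 2 ^ (∑ i, e i) * ((n.divisors.card : ℝ) ^ 8 / n) := by
  unfold mea_d
  set F := (Fintype.piFinset (fun i => blk2 (e i))).filter (fun x => ∏ i, x i = n) with hF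
  rcases F.eq_empty_or_nonempty with hE | ⟨x0, hx0⟩
  · rw [hE, sum_empty, norm_zero, zero_pow two_ne_zero]
    positivity
  have hn0 : (0 : ℝ) < n := by exact_mod_cast hn
  have hbig : (2 : ℝ) ^ (∑ i, e i) ≤ 16 * n := by
    rw [hF, mem_filter, Fintype.mem_piFinset] at hx0
    rw [← Finset.prod_pow_eq_pow_sum, ← hx0.2]
    push_cast
    have h2 : (16 : ℝ) = ∏ _i : Fin 4, 2 := by simp; norm_num
    rw [h2, ← prod_mul_distrib]
    apply prod_le_prod
    · intro i _; positivity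
    · intro i _
      exact_mod_cast (mea_blk (hx0.1 i)).2.2
  have hcard : F.card ≤ n.divisors.card ^ 4 := by
    have : F ⊆ Fintype.piFinset (fun _ : Fin 4 => n.divisors) := by
      intro x hx
      rw [hF, mem_filter, Fintype.mem_piFinset] at hx
      rw [Fintype.mem_piFinset]
      intro i
      rw [Nat.mem_divisors]
      refine ⟨?_, by omega⟩
      rw [← hx.2]
      exact Finset.dvd_prod_of_mem _ (mem_univ i)
    have h := card_le_card this
    simpa using h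
  have h1 : ‖∑ x ∈ F, ∏ i, (a i (x i) / (x i : ℂ))‖ ≤ (n.divisors.card : ℝ) ^ 4 * (K ^ 4 / n) := by
    refine (norm_sum_le _ _).trans ?_
    have h2 : ∀ x ∈ F, ‖∏ i, (a i (x i) / (x i : ℂ))‖ ≤ K ^ 4 / n := by
      intro x hx
      rw [hF, mem_filter, Fintype.mem_piFinset] at hx
      rw [norm_prod]
      have h3 : (K ^ 4 / n : ℝ) = ∏ i : Fin 4, (K / (x i : ℝ)) := by
        rw [prod_div_distrib, ← hx.2]
        simp
      rw [h3]
      apply prod_le_prod
      · intro i _; positivity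
      · intro i _
        rw [norm_div, Complex.norm_natCast]
        gcongr
        exact ha i _ (hx.1 i)
    refine (sum_le_sum h2).trans ?_
    rw [sum_const, nsmul_eq_mul]
    gcongr
    exact_mod_cast hcard
  calc ‖∑ x ∈ F, ∏ i, (a i (x i) / (x i : ℂ))‖ ^ 2
      ≤ ((n.divisors.card : ℝ) ^ 4 * (K ^ 4 / n)) ^ 2 := by gcongr
    _ = K ^ 8 * (1 / n) * ((n.divisors.card : ℝ) ^ 8 / n) := by ring
    _ ≤ K ^ 8 * (16 / 2 ^ (∑ i, e i)) * ((n.divisors.card : ℝ) ^ 8 / n) := by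
        have h9 : (1 : ℝ) / n ≤ 16 / 2 ^ (∑ i, e i) := by
          rw [div_le_div_iff₀ hn0 (by positivity)]
          linarith
        gcongr
    _ = _ := by ring

private lemma mea_univ (C0 : ℝ) (hC0 : 0 < C0)
    (hMV : ∀ (T : ℝ) (N : ℕ) (a : ℕ → ℂ), 1 ≤ T → 1 ≤ N →
      ∫ t in (-T)..T, ‖∑ n ∈ Icc 1 N, a n * ch t n‖ ^ 2
        ≤ C0 * (T + N) * ∑ n ∈ Icc 1 N, ‖a n‖ ^ 2)
    (a : Fin 4 → ℕ → ℂ) (e : Fin 4 → ℕ) (K T : ℝ) (hT : 1 ≤ T) (hK : 1 ≤ K)
    (ha : ∀ i, ∀ n ∈ blk2 (e i), ‖a i n‖ ≤ K) :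
    ∫ t in (-T)..T, ∏ i, ‖AA (a i) (e i) t‖ ^ 2 ≤
      16 * C0 * K ^ 8 * (T / 2 ^ (∑ i, e i) + 1) * (1 + ∑ i, (e i : ℝ)) ^ 256 := by
  set P : ℕ := 2 ^ (∑ i, e i) with hP
  have hP1 : 1 ≤ P := Nat.one_le_two_pow
  have hPr : (P : ℝ) = 2 ^ (∑ i, e i) := by rw [hP]; push_cast; rfl
  have hP0 : (0 : ℝ) < P := by exact_mod_cast hP1
  have h1 : ∀ t : ℝ, ∏ i, ‖AA (a i) (e i) t‖ ^ 2 = ‖∑ n ∈ Icc 1 P, mea_d a e n * ch t n‖ ^ 2 := by
    intro t
    rw [← mea_prod, norm_prod, ← prod_pow]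
  simp_rw [h1]
  refine (hMV T P _ hT hP1).trans ?_
  have h2 : ∑ n ∈ Icc 1 P, ‖mea_d a e n‖ ^ 2 ≤ 16 * K ^ 8 / P * (1 + ∑ i, (e i : ℝ)) ^ 256 := by
    have h3 : ∑ n ∈ Icc 1 P, ‖mea_d a e n‖ ^ 2 ≤
        ∑ n ∈ Icc 1 P, 16 * K ^ 8 / P * ((n.divisors.card : ℝ) ^ 8 / n) := by
      apply sum_le_sum
      intro n hn
      rw [hPr]
      exact mea_dle a e K hK ha n (mem_Icc.1 hn).1
    refine h3.trans ?_
    rw [← mul_sum]
    have h4 := mea_tau 8 P hP1
    have h5 : Real.log P ≤ ∑ i, (e i : ℝ) := by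
      rw [hPr, Real.log_pow]
      push_cast
      have : Real.log 2 ≤ 1 := by linarith [Real.log_two_lt_d9]
      have h6 : (0 : ℝ) ≤ ∑ i, (e i : ℝ) := by positivity
      nlinarith
    have h7 : 0 ≤ Real.log P := Real.log_natCast_nonneg P
    gcongr
    refine h4.trans ?_
    norm_num
    gcongr
  calc C0 * (T + P) * ∑ n ∈ Icc 1 P, ‖mea_d a e n‖ ^ 2
      ≤ C0 * (T + P) * (16 * K ^ 8 / P * (1 + ∑ i, (e i : ℝ)) ^ 256) := by gcongr
    _ = _ := by
        rw [← hPr]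
        field_simp

theorem hMEA : StMea := by
  obtain ⟨C0, hC0, hMV⟩ := Pool.Agent.Helper68.MR.mv
  refine ⟨max 256 ⌈16 * C0⌉₊, ?_⟩
  intro a e S K T hT hK ha
  classical
  set e' : Fin 4 → ℕ := fun i => if i ∈ S then e i else 0 with he'
  set a' : Fin 4 → ℕ → ℂ := fun i => if i ∈ S then a i else fun _ => 1 with ha'
  have h := mea_univ C0 hC0 hMV a' e' K T hT hK (by
    intro i n hn
    by_cases hi : i ∈ S
    · simp only [he', ha', if_pos hi] at hn ⊢
      exact ha i n hn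
    · simp only [ha', if_neg hi]
      simpa using hK)
  have h1 : ∑ i, e' i = ∑ i ∈ S, e i := by
    rw [he', Finset.sum_ite_mem, univ_inter]
  have h2 : ∑ i, (e' i : ℝ) = ∑ i ∈ S, (e i : ℝ) := by
    have : (∑ i, (e' i : ℝ)) = ((∑ i, e' i : ℕ) : ℝ) := by push_cast; rfl
    rw [this, h1]; push_cast; rfl
  have h3 : ∀ t : ℝ, ∏ i, ‖AA (a' i) (e' i) t‖ ^ 2 = ∏ i ∈ S, ‖AA (a i) (e i) t‖ ^ 2 := by
    intro t
    rw [← Finset.prod_subset (subset_univ S)]
    · apply prod_congr rfl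
      intro i hi
      simp only [he', ha', if_pos hi]
    · intro i _ hi
      simp only [he', ha', if_neg hi]
      simp [AA, blk2, ch]
  simp_rw [h3] at h
  rw [h1, h2] at h
  refine h.trans ?_
  have h4 : 16 * C0 ≤ ((max 256 ⌈16 * C0⌉₊ : ℕ) : ℝ) :=
    (Nat.le_ceil _).trans (by exact_mod_cast le_max_right _ _)
  have h5 : (1 : ℝ) ≤ 1 + ∑ i ∈ S, (e i : ℝ) := by
    have : (0 : ℝ) ≤ ∑ i ∈ S, (e i : ℝ) := by positivity
    linarith
  gcongr
  exact le_max_left _ _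

end Pool.Agent.Helper71.GK
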